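import Pool.Agent.R970.Vor.Main

set_option autoImplicit false

/-!
# The facet number of the typical beta'-Voronoi cell does not decay exponentially

For every dimension `d ≥ 2` and every `β > d / 2 + 1` the number of facets of the typical
beta'-Voronoi cell has a polynomial tail from below:
`P(Z' has at least N facets) ≥ κ N ^ (-4 (β - 1) ^ 2 / (2 (β - 1) - d))`.
Hence there is no `C < 1` with `P(Z' ∈ P_n) < C ^ n` for all `n ≥ d + 1`.

Idea: a point of height about `-t` exists in a fixed window with probability of order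
`t ^ (1 - β)`. With a probability bounded below, no other point is relevant at power level
`- t ^ σ`, where `σ = d / (2 (β - 1)) < 1`; then the cell is a polytope squeezed between two
concentric balls whose squared radii differ by `t ^ σ`, so it has at least
`(t ^ (1 - σ) / 16) ^ (1 / 2)` facets.

Definitions are in `Pool.Agent.R970.Vor.Defs`.
-/

namespace Pool.Agent.Results.MP_f78535_pr.PolynomialTail

open MeasureTheory Pool.Agent.R970.Vor
open scoped ENNReal

theorem result {Ω : Type*} [MeasurableSpace Ω] (P : Measure Ω) [IsProbabilityMeasure P]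
    (d : ℕ) (hd : 2 ≤ d) (β c : ℝ) (hβ : (d : ℝ) / 2 + 1 < β) (hc : 0 < c)
    (X : ℕ → Ω → E d × ℝ) (hX : IsPoisson P X (intensity d β c))
    (B : Set (E d)) (hB : MeasurableSet B) (hBb : Bornology.IsBounded B) (hB0 : 0 < volume B) :
    ECount P X B (fun _ => True) ≠ 0 ∧ ECount P X B (fun _ => True) ≠ ∞ ∧
    (∃ κ : ℝ, 0 < κ ∧ ∀ N : ℕ, 1 ≤ N →
      κ * (N : ℝ) ^ (-(4 * (β - 1) ^ 2 / (2 * (β - 1) - d))) ≤
        (typ P X B fun Q => ∃ n : ℕ, N ≤ n ∧ PolyN n Q).toReal) ∧
    ¬ ∃ C : ℝ, C < 1 ∧ ∀ n : ℕ, d + 1 ≤ n → (typ P X B (PolyN n)).toReal < C ^ n :=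
  main hd hβ hc hX hB hBb hB0

end Pool.Agent.Results.MP_f78535_pr.PolynomialTail
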